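import Pool.Agent.W251.EX.Defs4

/-!
Project EX, part 4: squarefree values from TW and TAIL.
-/

set_option autoImplicit false

namespace Pool.Agent.W67.EX

open Finset Filter
open Pool.Agent.W78.GA (nm)
open Pool.Agent.W78.EC (Gi SP)
open Pool.Agent.W251.EX

theorem sum_inv_le (N : ℕ) : ∑ X ∈ Icc 1 N, 1 / (X : ℝ) ≤ 1 + Real.log N := by
  have h := harmonic_le_one_add_log N
  rw [harmonic_eq_sum_Icc] at h
  push_cast at h
  simpa using h

theorem norm_root {N : ℕ} (hN : 1 ≤ N) {x : ℂ} (h : x ^ N = 1) : ‖x‖ = 1 := by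
  have h1 : ‖x‖ ^ N = 1 := by rw [← norm_pow, h, norm_one]
  exact (pow_eq_one_iff_of_nonneg (norm_nonneg _) (by omega)).1 h1

theorem sqf_sqp {P : ℕ} {p : ℕ × ℕ} (h : Squarefree (p.1 * p.2)) : Sqp P p := by
  intro l _ hl hd
  have h1 := h l (by rwa [← pow_two])
  exact hl.one_lt.ne' (Nat.isUnit_iff.1 h1)

open scoped Classical in
/-- the number in `S_TAIL` -/
noncomputable def TX (P X : ℕ) : ℝ :=
  (((SP X).filter (fun p => Sqp P p ∧ ¬ Squarefree (p.1 * p.2))).card : ℝ)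

theorem TX_nonneg (P X : ℕ) : 0 ≤ TX P X := Nat.cast_nonneg _

theorem TX_le (P X : ℕ) : TX P X ≤ (X : ℝ) ^ 2 := by
  classical
  unfold TX
  have h1 := (Finset.card_filter_le (SP X) (fun p => Sqp P p ∧ ¬ Squarefree (p.1 * p.2)))
  have h2 : (SP X).card ≤ X * X := by
    unfold SP
    refine (Finset.card_filter_le _ _).trans ?_
    rw [Finset.card_product, Nat.card_Icc]
    simp
  have h3 : ((SP X).filter (fun p => Sqp P p ∧ ¬ Squarefree (p.1 * p.2))).card ≤ X * X :=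
    h1.trans h2
  rw [pow_two]
  exact_mod_cast h3

open scoped Classical in
theorem step (N : ℕ) (τ : ℂ) (f g : ℕ → ℂ) (h : FG N τ f g) (q a r P : ℕ) (s₁ s₂ s₃ s₄ : ℝ)
    (X : ℕ) :
    ‖∑ p ∈ (SW q a r s₁ s₂ s₃ s₄ X).filter (fun p => Squarefree (p.1 * p.2)),
      f p.1 * g p.2‖ ≤
    ‖∑ p ∈ (SW q a r s₁ s₂ s₃ s₄ X).filter (Sqp P), f p.1 * g p.2‖ + TX P X := by
  have hn : ∀ p : ℕ × ℕ, ‖f p.1 * g p.2‖ = 1 := fun p => by
    rw [norm_mul, norm_root h.pos (h.pf p.1), norm_root h.pos (h.pg p.2), one_mul]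
  have e : ∑ p ∈ (SW q a r s₁ s₂ s₃ s₄ X).filter (fun p => Squarefree (p.1 * p.2)),
      f p.1 * g p.2 = ∑ p ∈ (SW q a r s₁ s₂ s₃ s₄ X).filter (Sqp P), f p.1 * g p.2 -
      ∑ p ∈ (SW q a r s₁ s₂ s₃ s₄ X).filter (fun p => Sqp P p ∧ ¬ Squarefree (p.1 * p.2)),
        f p.1 * g p.2 := by
    rw [eq_sub_iff_add_eq,
      ← Finset.sum_filter_add_sum_filter_not ((SW q a r s₁ s₂ s₃ s₄ X).filter (Sqp P))
        (fun p => Squarefree (p.1 * p.2)), Finset.filter_filter, Finset.filter_filter]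
    congr 1
    refine Finset.sum_congr ?_ fun _ _ => rfl
    ext p
    simp only [Finset.mem_filter]
    exact ⟨fun hp => ⟨hp.1, sqf_sqp hp.2, hp.2⟩, fun hp => ⟨hp.1, hp.2.2⟩⟩
  rw [e]
  refine (norm_sub_le _ _).trans ?_
  gcongr
  refine (norm_sum_le _ _).trans ?_
  rw [Finset.sum_congr rfl (fun p _ => hn p), Finset.sum_const, nsmul_eq_mul, mul_one]
  unfold TX
  have h1 : ((SW q a r s₁ s₂ s₃ s₄ X).filter (fun p => Sqp P p ∧ ¬ Squarefree (p.1 * p.2))) ⊆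
      ((SP X).filter (fun p => Sqp P p ∧ ¬ Squarefree (p.1 * p.2))) := by
    intro p hp
    rw [Finset.mem_filter] at hp ⊢
    refine ⟨?_, hp.2⟩
    have := hp.1
    unfold SW at this
    exact (Finset.mem_filter.1 this).1
  exact_mod_cast Finset.card_le_card h1

open scoped Classical in
theorem ts (h1 : S_TW) (h2 : S_TAIL) : Pool.Agent.W251.EX.S_TS := by
  intro N τ f g hfg hap q a r hq s₁ s₂ s₃ s₄ a1 a2 a3 a4 a5 a6 ε hε
  obtain ⟨P, X₀, hT⟩ := h2 (ε / 4) (by linarith)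
  obtain ⟨N₁, hN₁⟩ := h1 N τ f g hfg hap q a r P hq s₁ s₂ s₃ s₄ a1 a2 a3 a4 a5 a6 (ε / 4)
    (by linarith)
  refine ⟨max N₁ ⌈Real.exp (max 1 (4 * X₀ / ε))⌉₊, fun N' hN' => ?_⟩
  have hL : max 1 (4 * X₀ / ε) ≤ Real.log N' := by
    have g1 : Real.exp (max 1 (4 * X₀ / ε)) ≤ N' :=
      (Nat.le_ceil _).trans (by exact_mod_cast (le_max_right _ _).trans hN')
    rw [Real.le_log_iff_exp_le (lt_of_lt_of_le (Real.exp_pos _) g1)]
    exact g1
  have hL1 : 1 ≤ Real.log N' := (le_max_left _ _).trans hL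
  have hL2 : (X₀ : ℝ) ≤ ε / 4 * Real.log N' := by
    have g1 : 4 * X₀ / ε ≤ Real.log N' := (le_max_right _ _).trans hL
    rw [div_le_iff₀ hε] at g1
    linarith
  have hA := hN₁ N' ((le_max_left _ _).trans hN')
  have hB : ∑ X ∈ Icc 1 N', 1 / (X : ℝ) ^ 2 * TX P X ≤ ε / 4 * (1 + Real.log N') + X₀ := by
    have g1 : ∀ X ∈ Icc 1 N', 1 / (X : ℝ) ^ 2 * TX P X ≤
        ε / 4 * (1 / (X : ℝ)) + (if X < X₀ then 1 else 0) := by
      intro X hX
      have hX1 : (0 : ℝ) < X := by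
        have := (Finset.mem_Icc.1 hX).1
        exact_mod_cast this
      split_ifs with hlt
      · have g2 : 1 / (X : ℝ) ^ 2 * TX P X ≤ 1 / (X : ℝ) ^ 2 * (X : ℝ) ^ 2 :=
          mul_le_mul_of_nonneg_left (TX_le P X) (by positivity)
        rw [one_div, inv_mul_cancel₀ (by positivity)] at g2
        have g3 : 0 ≤ ε / 4 * (1 / (X : ℝ)) := by positivity
        rw [one_div]
        linarith
      · have g2 : TX P X ≤ ε / 4 * X := hT X (not_lt.1 hlt)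
        have g3 : 1 / (X : ℝ) ^ 2 * TX P X ≤ 1 / (X : ℝ) ^ 2 * (ε / 4 * X) :=
          mul_le_mul_of_nonneg_left g2 (by positivity)
        have g4 : 1 / (X : ℝ) ^ 2 * (ε / 4 * X) = ε / 4 * (1 / (X : ℝ)) := by
          field_simp
        linarith
    refine (Finset.sum_le_sum g1).trans ?_
    rw [Finset.sum_add_distrib, ← Finset.mul_sum]
    have g2 := sum_inv_le N'
    have g3 : ∑ X ∈ Icc 1 N', (if X < X₀ then (1 : ℝ) else 0) ≤ X₀ := by
      rw [← Finset.sum_filter, Finset.sum_const, nsmul_eq_mul, mul_one]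
      have : ((Icc 1 N').filter (fun X => X < X₀)).card ≤ (Finset.range X₀).card :=
        Finset.card_le_card fun X hX => Finset.mem_range.2 (Finset.mem_filter.1 hX).2
      rw [Finset.card_range] at this
      exact_mod_cast this
    have g4 : ε / 4 * ∑ X ∈ Icc 1 N', 1 / (X : ℝ) ≤ ε / 4 * (1 + Real.log N') :=
      mul_le_mul_of_nonneg_left g2 (by linarith)
    linarith
  have hC : ∑ X ∈ Icc 1 N', 1 / (X : ℝ) ^ 2 *
      ‖∑ p ∈ (SW q a r s₁ s₂ s₃ s₄ X).filter (fun p => Squarefree (p.1 * p.2)),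
        f p.1 * g p.2‖ ≤ ∑ X ∈ Icc 1 N', 1 / (X : ℝ) ^ 2 *
      ‖∑ p ∈ (SW q a r s₁ s₂ s₃ s₄ X).filter (Sqp P), f p.1 * g p.2‖ +
      ∑ X ∈ Icc 1 N', 1 / (X : ℝ) ^ 2 * TX P X := by
    rw [← Finset.sum_add_distrib]
    refine Finset.sum_le_sum fun X _ => ?_
    rw [← mul_add]
    exact mul_le_mul_of_nonneg_left (step N τ f g hfg q a r P s₁ s₂ s₃ s₄ X) (by positivity)
  refine hC.trans ?_
  nlinarith

end Pool.Agent.W67.EX
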